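import Mathlib

/-! Project AX, piece C1. -/

set_option autoImplicit false

open Polynomial

namespace Pool.Agent.E8helper64.AX

/-- few vanishing coefficients -/
theorem zero_of_coeff {u : ℚ[X]} (hu : IsCoprime (X : ℚ[X]) u) (e k : ℕ) (r : ℚ[X])
    (h : ∀ t < k, (u ^ e * r).coeff t = 0) (hr : r.natDegree < k) : r = 0 := by
  have h1 : (X : ℚ[X]) ^ k ∣ u ^ e * r := X_pow_dvd_iff.mpr h
  have h2 : (X : ℚ[X]) ^ k ∣ r := (IsCoprime.pow hu).dvd_of_dvd_mul_left h1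
  rw [X_pow_dvd_iff] at h2
  ext n
  rw [coeff_zero]
  rcases lt_or_ge n k with hn | hn
  · exact h2 n hn
  · exact coeff_eq_zero_of_natDegree_lt (lt_of_lt_of_le hr hn)

theorem cop1 : IsCoprime (X : ℚ[X]) (1 - X) := ⟨1, 1, by ring⟩

theorem cop2 : IsCoprime (X : ℚ[X]) (1 + X) := ⟨-1, 1, by ring⟩

theorem core_zero {m h N : ℕ} (d : ℕ → ℕ → ℚ)
    (h1 : ∀ i ≤ N, ∃ r : ℚ[X], r.natDegree ≤ i ∧
      ∀ t ≤ N, d t i = ((1 - X) ^ (m - 2 * i) * r).coeff t)
    (h2 : ∀ t ≤ N, ∃ g : ℚ[X], g.natDegree ≤ t - 1 ∧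
      ∀ i ≤ N, d t i = ((1 + X) ^ (h - 2 * t) * g).coeff i)
    (h0 : d 0 0 = 0) : ∀ i ≤ N, ∀ t ≤ N, d t i = 0 := by
  intro i
  induction i using Nat.strong_induction_on with
  | _ i ih =>
    intro hi
    have hsmall : ∀ t ≤ i, d t i = 0 := by
      intro t ht
      rcases Nat.eq_zero_or_pos i with h | hpos
      · subst h
        obtain rfl : t = 0 := by omega
        exact h0
      · obtain ⟨g, hg, hgc⟩ := h2 t (by omega)
        have hg0 : g = 0 := by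
          apply zero_of_coeff cop2 (h - 2 * t) i g
          · intro j hj
            rw [← hgc j (by omega)]
            exact ih j hj (by omega) t (by omega)
          · omega
        rw [hgc i hi, hg0, mul_zero, coeff_zero]
    obtain ⟨r, hr, hrc⟩ := h1 i hi
    have hr0 : r = 0 := by
      apply zero_of_coeff cop1 (m - 2 * i) (i + 1) r
      · intro t ht
        rw [← hrc t (by omega)]
        exact hsmall t (by omega)
      · omega
    intro t ht
    rw [hrc t ht, hr0, mul_zero, coeff_zero]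

theorem core_of_sol {m h N : ℕ} (b b' : ℕ → ℕ → ℚ)
    (h1 : ∀ i ≤ N, ∃ r : ℚ[X], r.natDegree ≤ i ∧
      (∀ t ≤ N, b t i = ((1 - X) ^ (m - 2 * i) * r).coeff t) ∧ (i = N → r.eval 1 = 0))
    (h2 : ∀ t ≤ N, ∃ g : ℚ[X], g.natDegree ≤ t - 1 ∧
      ∀ i ≤ N, b t i = ((1 + X) ^ (h - 2 * t) * g).coeff i)
    (h1' : ∀ i ≤ N, ∃ r : ℚ[X], r.natDegree ≤ i ∧
      (∀ t ≤ N, b' t i = ((1 - X) ^ (m - 2 * i) * r).coeff t) ∧ (i = N → r.eval 1 ≠ 0))
    (h2' : ∀ t ≤ N, ∃ g : ℚ[X], g.natDegree ≤ t - 1 ∧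
      ∀ i ≤ N, b' t i = ((1 + X) ^ (h - 2 * t) * g).coeff i) :
    b 0 0 = 0 := by
  have hlin : ∀ (u r r' : ℚ[X]) (e t : ℕ), (u ^ e * (C (b' 0 0) * r - C (b 0 0) * r')).coeff t =
      b' 0 0 * (u ^ e * r).coeff t - b 0 0 * (u ^ e * r').coeff t := by
    intro u r r' e t
    rw [show u ^ e * (C (b' 0 0) * r - C (b 0 0) * r') =
      C (b' 0 0) * (u ^ e * r) - C (b 0 0) * (u ^ e * r') by ring, coeff_sub, coeff_C_mul,
      coeff_C_mul]
  have hdeg : ∀ (r r' : ℚ[X]) (k : ℕ), r.natDegree ≤ k → r'.natDegree ≤ k →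
      (C (b' 0 0) * r - C (b 0 0) * r').natDegree ≤ k := by
    intro r r' k hr hr'
    refine (natDegree_sub_le _ _).trans (max_le ?_ ?_)
    · exact (natDegree_C_mul_le _ _).trans hr
    · exact (natDegree_C_mul_le _ _).trans hr'
  have hd := core_zero (m := m) (h := h) (N := N)
    (fun t i => b' 0 0 * b t i - b 0 0 * b' t i) (by
      intro i hi
      obtain ⟨r, hr, hrc, -⟩ := h1 i hi
      obtain ⟨r', hr', hrc', -⟩ := h1' i hi
      refine ⟨C (b' 0 0) * r - C (b 0 0) * r', hdeg r r' i hr hr', ?_⟩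
      intro t ht
      rw [hlin, ← hrc t ht, ← hrc' t ht]) (by
      intro t ht
      obtain ⟨g, hg, hgc⟩ := h2 t ht
      obtain ⟨g', hg', hgc'⟩ := h2' t ht
      refine ⟨C (b' 0 0) * g - C (b 0 0) * g', hdeg g g' (t - 1) hg hg', ?_⟩
      intro i hi
      rw [hlin, ← hgc i hi, ← hgc' i hi]) (by
      show b' 0 0 * b 0 0 - b 0 0 * b' 0 0 = 0
      ring)
  obtain ⟨r, hr, hrc, hre⟩ := h1 N le_rfl
  obtain ⟨r', hr', hrc', hre'⟩ := h1' N le_rfl
  have hR : C (b' 0 0) * r - C (b 0 0) * r' = 0 := by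
    apply zero_of_coeff cop1 (m - 2 * N) (N + 1)
    · intro t ht
      rw [hlin, ← hrc t (by omega), ← hrc' t (by omega)]
      exact hd N le_rfl t (by omega)
    · have := hdeg r r' N hr hr'
      omega
  have he := congrArg (eval 1) hR
  rw [eval_sub, eval_mul, eval_mul, eval_C, eval_C, hre rfl, mul_zero, zero_sub, eval_zero,
    neg_eq_zero] at he
  exact (mul_eq_zero.mp he).resolve_right (hre' rfl)

end Pool.Agent.E8helper64.AX
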